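import Pool.Agent.N931.PN.Stm4

/-!
PN/P3: lower bounds in terms of the laws (helper490).
-/

set_option autoImplicit false

namespace Pool.Agent.N490.PN.P3

open H974 H12S H389NS H984N H984P H342P Finset MeasureTheory Filter Topology
open Pool.Agent.N116.EW Pool.Agent.N931.PN
open H342L (cdist Curve)

theorem main : S_LOW → S_COV → S_INT → S_P3 := by
  intro hLOW hCOV hINT R
  obtain ⟨f, hL, c, C, δ0, hc, hC, hδ0, h⟩ := hLOW R
  have hcont : Continuous f := by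
    have : LipschitzWith 1 f := LipschitzWith.of_dist_le_mul fun γ γ' => by
      rw [NNReal.coe_one, one_mul, Real.dist_eq]
      exact hL.1 γ γ'
    exact this.continuous
  have hb : ∀ γ, |f γ| ≤ 1 := hL.2
  refine ⟨f, hL.1, hL.2, c, C, δ0, hc, hC, hδ0, fun δ hδ hδ' ε => ?_⟩
  obtain ⟨h1, h2⟩ := h δ ε hδ hδ' ε.2.1 ε.2.2
  obtain ⟨i1, i2, -, -⟩ := hINT R δ ε
  have hx0 : (0 : ℝ) ≤ 1 - (ε : ℝ) := by linarith [ε.2.2]
  have hx1 : 1 - (ε : ℝ) ≤ 1 := by linarith [ε.2.1]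
  obtain ⟨-, c2, -, -⟩ := hCOV (R.dm δ).edges (hf R δ f) (hf R δ f) (1 - (ε : ℝ)) hx0 hx1
  constructor
  · intro hε
    have h3 := h1 hε
    rw [← c2] at h3
    rw [i1 (fun q => f q.1 * f q.2) (by fun_prop) ⟨1, fun q => by
      rw [abs_mul]
      exact mul_le_one₀ (hb _) (abs_nonneg _) (hb _)⟩, i2 f hcont ⟨1, hb⟩]
    exact h3
  · rw [i1 (fun q => (f q.1 - f q.2) ^ 2) (by fun_prop) ⟨4, fun q => by
      have a1 := abs_le.1 (hb q.1)
      have a2 := abs_le.1 (hb q.2)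
      rw [abs_of_nonneg (sq_nonneg _)]
      nlinarith⟩]
    exact h2

end Pool.Agent.N490.PN.P3
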